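import Pool.Agent.H.MP_b29aa3_nt.A

namespace Pool.Agent.Results.MP_b29aa3_nt.No

/-- the height A(n): the largest absolute value of a coefficient of the n-th cyclotomic polynomial -/
noncomputable def height (n : ℕ) : ℕ :=
  (Polynomial.cyclotomic n ℤ).support.sup (fun k : ℕ => ((Polynomial.cyclotomic n ℤ).coeff k).natAbs)

theorem result : ∃ p q r s : ℕ, p.Prime ∧ q.Prime ∧ r.Prime ∧ s.Prime ∧ p < q ∧ q < r ∧ r < s ∧
    ((s : ℤ) ≡ 1 [ZMOD (p * q * r : ℕ)] ∨ (s : ℤ) ≡ -1 [ZMOD (p * q * r : ℕ)]) ∧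
    ((r : ℤ) ≡ 1 [ZMOD (p * q : ℕ)] ∨ (r : ℤ) ≡ -1 [ZMOD (p * q : ℕ)]) ∧
    ¬ ((q : ℤ) ≡ -1 [ZMOD p]) ∧ 3 ≤ height (p * q * r * s) := by
  refine ⟨11, 13, 571, 163307, by norm_num, by norm_num, by norm_num, by norm_num, by norm_num,
    by norm_num, by norm_num, Or.inl (by decide), Or.inr (by decide), by decide, ?_⟩
  have c := Pool.Agent.H.MP_b29aa3_nt.coef
  have hm : 163307 * 12579 + 27 ∈ (Polynomial.cyclotomic (11 * 13 * 571 * 163307) ℤ).support := by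
    rw [Polynomial.mem_support_iff, c]; norm_num
  have h := Finset.le_sup (f := fun k : ℕ =>
    ((Polynomial.cyclotomic (11 * 13 * 571 * 163307) ℤ).coeff k).natAbs) hm
  simp only [c] at h
  exact h

end Pool.Agent.Results.MP_b29aa3_nt.No
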